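import Mathlib

/-!
Colourings of a graph in which a given set of vertices is monochromatic: the counting function is a
polynomial in the number of colours, and the basic recursions.
-/

set_option autoImplicit false
set_option linter.unusedSectionVars false

namespace Pool.Agent.V5helper9.Chr

open Finset Polynomial

variable {V : Type*} [Fintype V] [DecidableEq V]

open Classical in
/-- number of maps `V → Fin k` which are proper colourings of `H` and constant on `S` -/
noncomputable def cnt (H : SimpleGraph V) (S : Finset V) (k : ℕ) : ℕ :=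
  (univ.filter fun σ : V → Fin k =>
    (∀ a b, H.Adj a b → σ a ≠ σ b) ∧ ∀ a ∈ S, ∀ b ∈ S, σ a = σ b).card

/-- the edges at `u` are deleted -/
def del (H : SimpleGraph V) (u : V) : SimpleGraph V where
  Adj a b := H.Adj a b ∧ a ≠ u ∧ b ≠ u
  symm := ⟨fun _ _ h => ⟨h.1.symm, h.2.2, h.2.1⟩⟩
  loopless := ⟨fun a h => H.loopless.irrefl a h.1⟩

lemma del_adj {H : SimpleGraph V} {u a b : V} : (del H u).Adj a b ↔ H.Adj a b ∧ a ≠ u ∧ b ≠ u :=
  Iff.rfl

open Classical in
/-- neighbourhood as a finset -/
noncomputable def nb (H : SimpleGraph V) (u : V) : Finset V := univ.filter fun a => H.Adj u a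

lemma mem_nb {H : SimpleGraph V} {u a : V} : a ∈ nb H u ↔ H.Adj u a := by
  simp [nb]

open Classical in
lemma cnt_rec (H : SimpleGraph V) (S : Finset V) (u : V) (hu : u ∈ S) (k : ℕ) :
    (cnt H S k : ℤ) = ∑ T ∈ (nb H u).powerset, (-1 : ℤ) ^ T.card * cnt (del H u) (S ∪ T) k := by
  have key : ∀ σ : V → Fin k,
      (if (∀ a b, H.Adj a b → σ a ≠ σ b) ∧ ∀ a ∈ S, ∀ b ∈ S, σ a = σ b then (1 : ℤ) else 0) =
      ∑ T ∈ (nb H u).powerset, (-1 : ℤ) ^ T.card *
        (if (∀ a b, (del H u).Adj a b → σ a ≠ σ b) ∧ ∀ a ∈ S ∪ T, ∀ b ∈ S ∪ T, σ a = σ b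
          then (1 : ℤ) else 0) := by
    intro σ
    by_cases h1 : (∀ a b, (del H u).Adj a b → σ a ≠ σ b) ∧ ∀ a ∈ S, ∀ b ∈ S, σ a = σ b
    · have h2 : ∀ T ∈ (nb H u).powerset, (-1 : ℤ) ^ T.card *
          (if (∀ a b, (del H u).Adj a b → σ a ≠ σ b) ∧ ∀ a ∈ S ∪ T, ∀ b ∈ S ∪ T, σ a = σ b
            then (1 : ℤ) else 0) = ∏ a ∈ T, (-(if σ a = σ u then (1 : ℤ) else 0)) := by
        intro T hT
        by_cases h3 : ∀ a ∈ T, σ a = σ u
        · rw [if_pos, Finset.prod_congr rfl (fun a ha => by rw [if_pos (h3 a ha)])]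
          · simp
          · refine ⟨h1.1, ?_⟩
            have h4 : ∀ a ∈ S ∪ T, σ a = σ u := by
              intro a ha
              rcases mem_union.mp ha with h | h
              · exact h1.2 a h u hu
              · exact h3 a h
            intro a ha b hb
            rw [h4 a ha, h4 b hb]
        · rw [if_neg]
          · push Not at h3
            obtain ⟨a, ha, hau⟩ := h3
            rw [mul_zero]
            symm
            apply Finset.prod_eq_zero ha
            rw [if_neg hau]
            simp
          · rintro ⟨_, h4⟩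
            apply h3
            intro a ha
            exact h4 a (mem_union_right _ ha) u (mem_union_left _ hu)
      rw [Finset.sum_congr rfl h2]
      have h5 := Finset.prod_add (fun a => -(if σ a = σ u then (1 : ℤ) else 0)) (fun _ => (1 : ℤ))
        (nb H u)
      simp only [Finset.prod_const_one, mul_one] at h5
      rw [← h5]
      by_cases h6 : ∀ a ∈ nb H u, σ a ≠ σ u
      · rw [if_pos]
        · symm
          apply Finset.prod_eq_one
          intro a ha
          rw [if_neg (h6 a ha)]
          simp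
        · refine ⟨?_, h1.2⟩
          intro a b hab
          by_cases ha : a = u
          · subst ha
            exact fun h => h6 b (mem_nb.mpr hab) h.symm
          · by_cases hb : b = u
            · subst hb
              exact h6 a (mem_nb.mpr hab.symm)
            · exact h1.1 a b ⟨hab, ha, hb⟩
      · push Not at h6
        obtain ⟨a, ha, hau⟩ := h6
        rw [if_neg]
        · symm
          apply Finset.prod_eq_zero ha
          rw [if_pos hau]
          simp
        · rintro ⟨h7, _⟩
          exact h7 u a (mem_nb.mp ha) hau.symm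
    · rw [if_neg]
      · symm
        apply Finset.sum_eq_zero
        intro T hT
        rw [if_neg, mul_zero]
        rintro ⟨h2, h3⟩
        exact h1 ⟨h2, fun a ha b hb => h3 a (mem_union_left _ ha) b (mem_union_left _ hb)⟩
      · rintro ⟨h2, h3⟩
        exact h1 ⟨fun a b hab => h2 a b hab.1, h3⟩
  unfold cnt
  rw [Finset.card_filter, Nat.cast_sum]
  simp only [Finset.card_filter, Nat.cast_sum, Nat.cast_ite, Nat.cast_one, Nat.cast_zero]
  rw [Finset.sum_congr rfl (fun σ _ => key σ), Finset.sum_comm]
  apply Finset.sum_congr rfl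
  intro T hT
  rw [← Finset.mul_sum]

open Classical in
lemma cnt_isolated (H : SimpleGraph V) (S : Finset V) (u : V) (hu : u ∈ S) (hiso : nb H u = ∅)
    (hne : (S.erase u).Nonempty) (k : ℕ) : k * cnt H S k = cnt H (S.erase u) k := by
  obtain ⟨v, hv⟩ := hne
  have hvu : v ≠ u := (Finset.mem_erase.mp hv).1
  have hvS : v ∈ S := (Finset.mem_erase.mp hv).2
  have hadj : ∀ a, ¬ H.Adj u a := by
    intro a ha
    have : a ∈ nb H u := mem_nb.mpr ha
    rw [hiso] at this
    simp at this
  suffices hmain : ((univ : Finset (Fin k)) ×ˢ (univ.filter fun σ : V → Fin k =>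
      (∀ a b, H.Adj a b → σ a ≠ σ b) ∧ ∀ a ∈ S, ∀ b ∈ S, σ a = σ b)).card =
      (univ.filter fun σ : V → Fin k =>
      (∀ a b, H.Adj a b → σ a ≠ σ b) ∧ ∀ a ∈ S.erase u, ∀ b ∈ S.erase u, σ a = σ b).card by
    rw [Finset.card_product, Finset.card_univ, Fintype.card_fin] at hmain
    exact hmain
  apply Finset.card_bij' (fun (p : Fin k × (V → Fin k)) _ => (Function.update p.2 u p.1 : V → Fin k))
    (fun (σ : V → Fin k) _ => ((σ u, Function.update σ u (σ v)) : Fin k × (V → Fin k)))
  · rintro ⟨c, σ⟩ h
    simp only [mem_product, mem_univ, mem_filter, true_and] at h ⊢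
    refine ⟨?_, ?_⟩
    · intro a b hab
      have ha : a ≠ u := by rintro rfl; exact hadj b hab
      have hb : b ≠ u := by rintro rfl; exact hadj a hab.symm
      rw [Function.update_of_ne ha, Function.update_of_ne hb]
      exact h.1 a b hab
    · intro a ha b hb
      rw [Function.update_of_ne (Finset.mem_erase.mp ha).1,
        Function.update_of_ne (Finset.mem_erase.mp hb).1]
      exact h.2 a (Finset.mem_erase.mp ha).2 b (Finset.mem_erase.mp hb).2
  · intro σ h
    simp only [mem_product, mem_univ, mem_filter, true_and] at h ⊢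
    refine ⟨?_, ?_⟩
    · intro a b hab
      have ha : a ≠ u := by rintro rfl; exact hadj b hab
      have hb : b ≠ u := by rintro rfl; exact hadj a hab.symm
      rw [Function.update_of_ne ha, Function.update_of_ne hb]
      exact h.1 a b hab
    · have h2 : ∀ a ∈ S, Function.update σ u (σ v) a = σ v := by
        intro a ha
        by_cases hau : a = u
        · subst hau; simp
        · rw [Function.update_of_ne hau]
          exact h.2 a (Finset.mem_erase.mpr ⟨hau, ha⟩) v hv
      intro a ha b hb
      rw [h2 a ha, h2 b hb]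
  · rintro ⟨c, σ⟩ h
    simp only [mem_product, mem_univ, mem_filter, true_and] at h
    simp only [Function.update_self, Function.update_idem, Prod.mk.injEq, true_and]
    rw [Function.update_of_ne hvu, h.2 v hvS u hu]
    simp
  · intro σ h
    simp

lemma cnt_single (H : SimpleGraph V) (u v : V) (k : ℕ) : cnt H {u} k = cnt H {v} k := by
  unfold cnt
  congr 1
  ext σ
  simp

lemma cnt_bot (u : V) (k : ℕ) : cnt (⊥ : SimpleGraph V) {u} k = k ^ Fintype.card V := by
  have h : ∀ σ : V → Fin k, (∀ a b, (⊥ : SimpleGraph V).Adj a b → σ a ≠ σ b) ∧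
      ∀ a ∈ ({u} : Finset V), ∀ b ∈ ({u} : Finset V), σ a = σ b := by
    intro σ
    refine ⟨?_, ?_⟩
    · intro a b hab
      exact absurd hab (by simp)
    · intro a ha b hb
      rw [Finset.mem_singleton] at ha hb
      rw [ha, hb]
  unfold cnt
  have h2 : (Fintype.card (V → Fin k)) = k ^ Fintype.card V := by simp
  rw [← h2, ← Finset.card_univ]
  congr 1
  ext σ
  simp only [Finset.mem_filter, Finset.mem_univ, true_and, iff_true]
  exact h σ

open Classical in
lemma cnt_adj (H : SimpleGraph V) (S : Finset V) (u v : V) (hu : u ∈ S) (hv : v ∈ S)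
    (huv : H.Adj u v) (k : ℕ) : cnt H S k = 0 := by
  unfold cnt
  rw [Finset.card_eq_zero, Finset.filter_eq_empty_iff]
  rintro σ _ ⟨h1, h2⟩
  exact h1 u v huv (h2 u hu v hv)

/-! ### The polynomials -/

lemma card_edges_del (H : SimpleGraph V) (u a : V) (h : H.Adj u a) :
    (del H u).edgeSet.ncard < H.edgeSet.ncard := by
  apply Set.ncard_lt_ncard
  · refine ⟨?_, ?_⟩
    · intro e
      induction e using Sym2.ind with
      | _ x y => exact fun h => h.1
    · intro hsub
      have h1 : s(u, a) ∈ H.edgeSet := h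
      have h2 : (del H u).Adj u a := hsub h1
      exact h2.2.1 rfl
  · exact Set.toFinite _

/-- induction by deleting all edges at a vertex -/
lemma del_induction {P : SimpleGraph V → Prop} (hbot : P ⊥)
    (hstep : ∀ H : SimpleGraph V, (∀ u, (nb H u).Nonempty → P (del H u)) → H ≠ ⊥ → P H)
    (H : SimpleGraph V) : P H := by
  generalize hm : H.edgeSet.ncard = m
  induction m using Nat.strong_induction_on generalizing H with
  | _ m ih =>
    by_cases hH : H = ⊥
    · rw [hH]; exact hbot
    · apply hstep H _ hH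
      rintro u ⟨a, ha⟩
      exact ih _ (by rw [← hm]; exact card_edges_del H u a (mem_nb.mp ha)) _ rfl

lemma exists_nonisolated {H : SimpleGraph V} (h : H ≠ ⊥) : ∃ u, (nb H u).Nonempty := by
  by_contra hcon
  push Not at hcon
  apply h
  ext a b
  simp only [SimpleGraph.bot_adj, iff_false]
  intro hab
  have := hcon a
  rw [Finset.eq_empty_iff_forall_notMem] at this
  exact this b (mem_nb.mpr hab)

open Classical in
/-- number of proper colourings which respect the relation `R` -/
noncomputable def cntR (H : SimpleGraph V) (R : V → V → Prop) (k : ℕ) : ℕ :=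
  (univ.filter fun σ : V → Fin k =>
    (∀ a b, H.Adj a b → σ a ≠ σ b) ∧ ∀ a b, R a b → σ a = σ b).card

open Classical in
lemma cntR_bot (R : V → V → Prop) (k : ℕ) :
    cntR (⊥ : SimpleGraph V) R k = k ^ Nat.card (Quot R) := by
  haveI : Finite (Quot R) := Finite.of_surjective (Quot.mk R) Quot.mk_surjective
  haveI : Fintype (Quot R) := Fintype.ofFinite _
  have h2 : (Fintype.card (Quot R → Fin k)) = k ^ Nat.card (Quot R) := by simp
  rw [← h2, ← Finset.card_univ]
  unfold cntR
  symm
  apply Finset.card_bij (fun (f : Quot R → Fin k) _ => (fun v => f (Quot.mk R v) : V → Fin k))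
  · intro f _
    simp only [Finset.mem_filter, Finset.mem_univ, true_and]
    refine ⟨fun a b h => absurd h (by simp), fun a b h => ?_⟩
    rw [Quot.sound h]
  · intro f _ g _ h
    funext x
    induction x using Quot.ind with
    | _ v => exact congrFun h v
  · intro σ h
    simp only [Finset.mem_filter, Finset.mem_univ, true_and] at h
    exact ⟨Quot.lift σ h.2, Finset.mem_univ _, rfl⟩

open Classical in
lemma cntR_delete (H : SimpleGraph V) (R : V → V → Prop) (a b : V) (hab : H.Adj a b) (k : ℕ) :
    cntR H R k + cntR (H.deleteEdges {s(a, b)}) (fun x y => R x y ∨ (x = a ∧ y = b)) k =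
      cntR (H.deleteEdges {s(a, b)}) R k := by
  unfold cntR
  rw [← Finset.card_union_of_disjoint]
  · congr 1
    ext σ
    simp only [Finset.mem_union, Finset.mem_filter, Finset.mem_univ, true_and,
      SimpleGraph.deleteEdges_adj, Set.mem_singleton_iff]
    constructor
    · rintro (h | h)
      · exact ⟨fun x y hxy => h.1 x y hxy.1, h.2⟩
      · exact ⟨h.1, fun x y hxy => h.2 x y (Or.inl hxy)⟩
    · rintro ⟨h1, h2⟩
      by_cases h3 : σ a = σ b
      · right
        refine ⟨h1, ?_⟩
        rintro x y (h | ⟨rfl, rfl⟩)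
        · exact h2 x y h
        · exact h3
      · left
        refine ⟨?_, h2⟩
        intro x y hxy
        by_cases h4 : s(x, y) = s(a, b)
        · rw [Sym2.eq_iff] at h4
          rcases h4 with ⟨rfl, rfl⟩ | ⟨rfl, rfl⟩
          · exact h3
          · exact fun h => h3 h.symm
        · exact h1 x y ⟨hxy, h4⟩
  · rw [Finset.disjoint_left]
    intro σ h1 h2
    simp only [Finset.mem_filter, Finset.mem_univ, true_and] at h1 h2
    exact h1.1 a b hab (h2.2 a b (Or.inr ⟨rfl, rfl⟩))

lemma exists_polyR (H : SimpleGraph V) : ∀ R : V → V → Prop,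
    ∃ p : ℂ[X], ∀ k : ℕ, p.eval (k : ℂ) = cntR H R k := by
  classical
  generalize hm : H.edgeSet.ncard = m
  induction m using Nat.strong_induction_on generalizing H with
  | _ m ih =>
    intro R
    by_cases hH : H = ⊥
    · refine ⟨X ^ Nat.card (Quot R), fun k => ?_⟩
      rw [hH, cntR_bot]
      simp
    · obtain ⟨a, ha⟩ := exists_nonisolated hH
      obtain ⟨b, hb⟩ := ha
      rw [mem_nb] at hb
      have hlt : (H.deleteEdges {s(a, b)}).edgeSet.ncard < m := by
        rw [← hm]
        apply Set.ncard_lt_ncard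
        · refine ⟨?_, ?_⟩
          · intro e
            induction e using Sym2.ind with
            | _ x y =>
              intro h
              exact (SimpleGraph.deleteEdges_adj.mp h).1
          · intro hsub
            have h1 : s(a, b) ∈ H.edgeSet := hb
            have h2 := hsub h1
            rw [SimpleGraph.mem_edgeSet, SimpleGraph.deleteEdges_adj] at h2
            exact h2.2 rfl
        · exact Set.toFinite _
      obtain ⟨p, hp⟩ := ih _ hlt (H.deleteEdges {s(a, b)}) rfl R
      obtain ⟨p', hp'⟩ := ih _ hlt (H.deleteEdges {s(a, b)}) rfl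
        (fun x y => R x y ∨ (x = a ∧ y = b))
      refine ⟨p - p', fun k => ?_⟩
      rw [eval_sub, hp, hp', ← cntR_delete H R a b hb k]
      push_cast
      ring

lemma exists_poly (H : SimpleGraph V) (S : Finset V) :
    ∃ p : ℂ[X], ∀ k : ℕ, p.eval (k : ℂ) = cnt H S k := by
  obtain ⟨p, hp⟩ := exists_polyR H (fun a b => a ∈ S ∧ b ∈ S)
  refine ⟨p, fun k => ?_⟩
  rw [hp]
  norm_cast
  unfold cntR cnt
  congr 1
  ext σ
  simp only [Finset.mem_filter, Finset.mem_univ, true_and]
  constructor
  · rintro ⟨h1, h2⟩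
    exact ⟨h1, fun a ha b hb => h2 a b ⟨ha, hb⟩⟩
  · rintro ⟨h1, h2⟩
    exact ⟨h1, fun a b hab => h2 a hab.1 b hab.2⟩

/-- the polynomial which counts the proper colourings that are constant on `S` -/
noncomputable def Pol (H : SimpleGraph V) (S : Finset V) : ℂ[X] :=
  Classical.choose (exists_poly H S)

lemma Pol_eval (H : SimpleGraph V) (S : Finset V) (k : ℕ) :
    (Pol H S).eval (k : ℂ) = cnt H S k :=
  Classical.choose_spec (exists_poly H S) k

lemma poly_ext {p r : ℂ[X]} (h : ∀ k : ℕ, p.eval (k : ℂ) = r.eval (k : ℂ)) : p = r := by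
  apply Polynomial.eq_of_infinite_eval_eq
  apply Set.infinite_of_injective_forall_mem (f := fun k : ℕ => (k : ℂ)) Nat.cast_injective
  intro k
  exact h k

lemma Pol_rec (H : SimpleGraph V) (S : Finset V) (u : V) (hu : u ∈ S) :
    Pol H S = ∑ T ∈ (nb H u).powerset, (-1) ^ T.card * Pol (del H u) (S ∪ T) := by
  classical
  apply poly_ext
  intro k
  have h2 := cnt_rec H S u hu k
  have h3 : ((cnt H S k : ℤ) : ℂ) =
      ((∑ T ∈ (nb H u).powerset, (-1 : ℤ) ^ T.card * cnt (del H u) (S ∪ T) k : ℤ) : ℂ) := by
    rw [h2]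
  push_cast at h3
  rw [Pol_eval, h3, eval_finsetSum]
  apply Finset.sum_congr rfl
  intro T hT
  rw [eval_mul, Pol_eval]
  simp

lemma Pol_isolated (H : SimpleGraph V) (S : Finset V) (u : V) (hu : u ∈ S) (hiso : nb H u = ∅)
    (hne : (S.erase u).Nonempty) : X * Pol H S = Pol H (S.erase u) := by
  apply poly_ext
  intro k
  rw [eval_mul, eval_X, Pol_eval, Pol_eval, ← cnt_isolated H S u hu hiso hne k]
  push_cast
  ring

lemma Pol_single (H : SimpleGraph V) (u v : V) : Pol H {u} = Pol H {v} := by
  apply poly_ext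
  intro k
  rw [Pol_eval, Pol_eval, cnt_single H u v]

lemma Pol_bot (u : V) : Pol (⊥ : SimpleGraph V) {u} = X ^ Fintype.card V := by
  apply poly_ext
  intro k
  rw [Pol_eval, cnt_bot]
  simp

lemma Pol_adj (H : SimpleGraph V) (S : Finset V) (u v : V) (hu : u ∈ S) (hv : v ∈ S)
    (huv : H.Adj u v) : Pol H S = 0 := by
  apply poly_ext
  intro k
  rw [Pol_eval, cnt_adj H S u v hu hv huv]
  simp

end Pool.Agent.V5helper9.Chr
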