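import Pool.Agent.V5helper9.ChrMain

/-!
The criterion with a geometric sequence, and consequences for chromatic roots.
-/

set_option autoImplicit false
set_option linter.unusedSectionVars false

namespace Pool.Agent.V5helper9.Chr

open Finset Polynomial

/-- geometric bounds -/
noncomputable def geo (Q x : ℝ) : ℕ → ℝ
  | 0 => Q
  | 1 => 0
  | k + 2 => Q⁻¹ * x ^ k

/-- `(1 + y)^r - 1 - r y` -/
noncomputable def gg (y : ℝ) (r : ℕ) : ℝ := (1 + y) ^ r - 1 - r * y

lemma gg_step (y : ℝ) (r : ℕ) : gg y (r + 1) = gg y r + y * ((1 + y) ^ r - 1) := by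
  unfold gg
  push_cast
  ring

lemma gg_mono {y : ℝ} (hy : 0 ≤ y) : Monotone (gg y) := by
  apply monotone_nat_of_le_succ
  intro r
  rw [gg_step]
  have h1 : 1 ≤ (1 + y) ^ r := one_le_pow₀ (by linarith)
  nlinarith

lemma gg_nonneg {y : ℝ} (hy : 0 ≤ y) (r : ℕ) : 0 ≤ gg y r := by
  have h := gg_mono hy (Nat.zero_le r)
  have h0 : gg y 0 = 0 := by simp [gg]
  linarith

lemma geo_sum (Q t y : ℝ) (hQ : 0 < Q) (ht : 0 < t) (hy : 0 < y) (r : ℕ) :
    ∑ s ∈ Finset.Ico 1 (r + 1), (r.choose s : ℝ) * (t ^ (r - s) * geo Q (t * y) s) =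
      Q⁻¹ * t ^ r / (t * y) ^ 2 * gg y r := by
  rcases Nat.eq_zero_or_pos r with hr | hr
  · subst hr
    simp [gg]
  have h1 : (1 + y) ^ r = ∑ s ∈ Finset.range (r + 1), (r.choose s : ℝ) * y ^ s := by
    rw [add_comm, add_pow]
    apply Finset.sum_congr rfl
    intro s hs
    rw [one_pow]
    ring
  rw [Finset.range_eq_Ico, Finset.sum_eq_sum_Ico_succ_bot (by omega),
    Finset.sum_eq_sum_Ico_succ_bot (by omega)] at h1
  simp only [Nat.choose_zero_right, Nat.cast_one, pow_zero, mul_one, zero_add, Nat.choose_one_right,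
    pow_one] at h1
  have h2 : gg y r = ∑ s ∈ Finset.Ico (1 + 1) (r + 1), (r.choose s : ℝ) * y ^ s := by
    unfold gg
    linarith
  rw [h2, Finset.sum_eq_sum_Ico_succ_bot (by omega), Finset.mul_sum]
  simp only [geo, mul_zero, zero_add]
  apply Finset.sum_congr rfl
  intro s hs
  rw [Finset.mem_Ico] at hs
  obtain ⟨j, rfl⟩ : ∃ j, s = j + 2 := ⟨s - 2, by omega⟩
  simp only [geo]
  have h3 : t ^ r = t ^ (r - (j + 2)) * t ^ (j + 2) := by
    rw [← pow_add]; congr 1; omega
  rw [h3, mul_pow]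
  field_simp
  ring

lemma geo_Dlow (Q t y : ℝ) (hQ : 0 < Q) (ht : 0 < t) (hy : 0 < y) (r : ℕ) :
    Dlow Q t (geo Q (t * y)) r = Q * t ^ r * (1 - gg y r / (Q * t * y) ^ 2) := by
  unfold Dlow
  rw [geo_sum Q t y hQ ht hy r]
  field_simp

lemma geo_good (q : ℂ) (d : ℕ) (y : ℝ) (hq : q ≠ 0) (hq1 : q ≠ 1) (hy : 0 < y)
    (h1 : 5 / 2 ≤ ‖q - 1‖ * y)
    (h2 : 1 ≤ d → (1 + y) ^ d ≤ (‖q - 1‖ * y - 1) * (1 - gg y d / (‖q - 1‖ * y) ^ 2))
    (h3 : gg y (d + 1) < (‖q - 1‖ * y) ^ 2) :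
    Good q d (geo ‖q‖ (‖1 - q⁻¹‖ * y)) := by
  have hQ : 0 < ‖q‖ := norm_pos_iff.mpr hq
  have ht : 0 < ‖1 - q⁻¹‖ := by
    rw [norm_pos_iff, sub_ne_zero]
    intro h
    apply hq1
    rw [← inv_inv q, ← h, inv_one]
  have hR : ‖q‖ * ‖1 - q⁻¹‖ = ‖q - 1‖ := by
    rw [← norm_mul, mul_sub, mul_one, mul_inv_cancel₀ hq]
  set Q := ‖q‖ with hQd
  set t := ‖1 - q⁻¹‖ with htd
  have hz : Q * t * y = ‖q - 1‖ * y := by rw [hR]
  set z := ‖q - 1‖ * y with hzd
  have hz0 : 0 < z := by linarith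
  have hx : 0 < t * y := by positivity
  have hQx : Q * (t * y) = z := by rw [← hz]; ring
  have hD : ∀ r, Dlow Q t (geo Q (t * y)) r = Q * t ^ r * (1 - gg y r / z ^ 2) := by
    intro r
    rw [geo_Dlow Q t y hQ ht hy r, hz]
  have hpos : ∀ r, r ≤ d + 1 → 0 < 1 - gg y r / z ^ 2 := by
    intro r hr
    have h4 := gg_mono hy.le hr
    rw [sub_pos, div_lt_one (by positivity)]
    linarith
  refine ⟨hq, ?_, rfl, rfl, ?_, ?_, ?_⟩
  · intro k
    match k with
    | 0 => exact hQ.le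
    | 1 => exact le_refl 0
    | k + 2 => simp only [geo]; positivity
  · intro k
    match k with
    | 0 =>
      simp only [geo, mul_zero, zero_add, pow_zero, mul_one]
      apply le_of_eq
      rw [← hQd]
      field_simp
    | 1 =>
      simp only [geo, mul_zero, add_zero, pow_zero, mul_one, pow_one]
      rw [mul_comm (Q⁻¹) (t * y)]
      apply mul_le_mul_of_nonneg_right _ (by positivity)
      rw [← div_eq_mul_inv, div_le_iff₀ hQ]
      linarith [mul_comm Q (t * y)]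
    | k + 2 =>
      simp only [geo]
      have e1 : 2 * Q⁻¹ * (Q⁻¹ * (t * y) ^ (k + 1)) + Q⁻¹ ^ 2 * (Q⁻¹ * (t * y) ^ k) =
          Q⁻¹ ^ 3 * (t * y) ^ k * (2 * z + 1) := by
        rw [← hQx, pow_succ]
        field_simp
      have e2 : Q⁻¹ * (t * y) ^ (k + 2) = Q⁻¹ ^ 3 * (t * y) ^ k * z ^ 2 := by
        rw [← hQx, pow_add]
        field_simp
      rw [e1, e2]
      apply mul_le_mul_of_nonneg_left _ (by positivity)
      nlinarith
  · intro r hr1 hrd k
    have hg1 : ∀ j, (t * y) * geo Q (t * y) (j + 1) ≤ Q⁻¹ * (t * y) ^ j := by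
      intro j
      match j with
      | 0 => simp only [geo, mul_zero]; positivity
      | j + 1 =>
        simp only [geo]
        apply le_of_eq
        ring
    have hsum : (t * y) * ∑ s ∈ Finset.range (r + 1), (r.choose s : ℝ) *
        (t ^ (r - s) * geo Q (t * y) (k + 1 + s)) ≤ Q⁻¹ * (t * y) ^ k * (t ^ r * (1 + y) ^ r) := by
      rw [Finset.mul_sum]
      have e1 : (1 + y) ^ r = ∑ s ∈ Finset.range (r + 1), (r.choose s : ℝ) * y ^ s := by
        rw [add_comm, add_pow]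
        apply Finset.sum_congr rfl
        intro s hs
        rw [one_pow]
        ring
      rw [e1, Finset.mul_sum, Finset.mul_sum]
      apply Finset.sum_le_sum
      intro s hs
      rw [Finset.mem_range] at hs
      have e2 := hg1 (k + s)
      rw [show k + s + 1 = k + 1 + s by ring] at e2
      have e3 : t ^ r = t ^ (r - s) * t ^ s := by
        rw [← pow_add]; congr 1; omega
      calc (t * y) * ((r.choose s : ℝ) * (t ^ (r - s) * geo Q (t * y) (k + 1 + s)))
          = ((r.choose s : ℝ) * t ^ (r - s)) * ((t * y) * geo Q (t * y) (k + 1 + s)) := by ring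
        _ ≤ ((r.choose s : ℝ) * t ^ (r - s)) * (Q⁻¹ * (t * y) ^ (k + s)) :=
            mul_le_mul_of_nonneg_left e2 (by positivity)
        _ = Q⁻¹ * (t * y) ^ k * (t ^ r * ((r.choose s : ℝ) * y ^ s)) := by
            rw [e3, pow_add, mul_pow t y s]; ring
    have hDp : 0 < Dlow Q t (geo Q (t * y)) r := by
      rw [hD]
      have := hpos r (by omega)
      positivity
    have hkey : t ^ r * (1 + y) ^ r ≤ t ^ r * ((z - 1) * (1 - gg y r / z ^ 2)) := by
      apply mul_le_mul_of_nonneg_left _ (by positivity)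
      have e1 : (1 + y) ^ r ≤ (1 + y) ^ d := pow_le_pow_right₀ (by linarith) hrd
      have e2 : gg y r / z ^ 2 ≤ gg y d / z ^ 2 :=
        div_le_div_of_nonneg_right (gg_mono hy.le hrd) (by positivity)
      have e3 := h2 (by omega)
      have e4 : (z - 1) * (1 - gg y d / z ^ 2) ≤ (z - 1) * (1 - gg y r / z ^ 2) :=
        mul_le_mul_of_nonneg_left (by linarith) (by linarith)
      linarith
    have hfin : (t * y) * ((∑ s ∈ Finset.range (r + 1), (r.choose s : ℝ) *
        (t ^ (r - s) * geo Q (t * y) (k + 1 + s))) +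
        Dlow Q t (geo Q (t * y)) r * (Q⁻¹ * geo Q (t * y) (k + 1))) ≤
        (t * y) * (Dlow Q t (geo Q (t * y)) r * geo Q (t * y) (k + 2)) := by
      have e1 : (t * y) * (Dlow Q t (geo Q (t * y)) r * (Q⁻¹ * geo Q (t * y) (k + 1))) ≤
          Dlow Q t (geo Q (t * y)) r * Q⁻¹ * (Q⁻¹ * (t * y) ^ k) := by
        calc _ = Dlow Q t (geo Q (t * y)) r * Q⁻¹ * ((t * y) * geo Q (t * y) (k + 1)) := by ring
          _ ≤ _ := mul_le_mul_of_nonneg_left (hg1 k) (by positivity)
      have e2 : (t * y) * (Dlow Q t (geo Q (t * y)) r * geo Q (t * y) (k + 2)) =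
          Dlow Q t (geo Q (t * y)) r * Q⁻¹ * (Q⁻¹ * (t * y) ^ k) * z := by
        simp only [geo]
        rw [← hQx]
        field_simp
      have e3 : Q⁻¹ * (t * y) ^ k * (t ^ r * ((z - 1) * (1 - gg y r / z ^ 2))) =
          Dlow Q t (geo Q (t * y)) r * Q⁻¹ * (Q⁻¹ * (t * y) ^ k) * z -
          Dlow Q t (geo Q (t * y)) r * Q⁻¹ * (Q⁻¹ * (t * y) ^ k) := by
        rw [hD]
        generalize gg y r / z ^ 2 = w
        field_simp
      have e4 : Q⁻¹ * (t * y) ^ k * (t ^ r * (1 + y) ^ r) ≤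
          Q⁻¹ * (t * y) ^ k * (t ^ r * ((z - 1) * (1 - gg y r / z ^ 2))) :=
        mul_le_mul_of_nonneg_left hkey (by positivity)
      rw [mul_add, e2]
      linarith
    exact le_of_mul_le_mul_left hfin hx
  · intro r hr
    rw [hD]
    have := hpos r hr
    positivity

/-! ### Consequences for the chromatic polynomial of a graph -/

lemma nonvanishing {V : Type*} [Fintype V] [DecidableEq V] (q : ℂ) (d : ℕ) (y : ℝ) (hq : q ≠ 0)
    (hq1 : q ≠ 1) (hy : 0 < y) (h1 : 5 / 2 ≤ ‖q - 1‖ * y)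
    (h2 : 1 ≤ d → (1 + y) ^ d ≤ (‖q - 1‖ * y - 1) * (1 - gg y d / (‖q - 1‖ * y) ^ 2))
    (h3 : gg y (d + 1) < (‖q - 1‖ * y) ^ 2) (H : SimpleGraph V)
    (hH : ∀ v, (nb H v).card ≤ d + 1) (v0 : V) : (Pol H {v0}).eval q ≠ 0 :=
  (criterion q d _ (geo_good q d y hq hq1 hy h1 h2 h3) v0 H hH).1

/-- the polynomial of the statement is `Pol` -/
lemma eq_Pol {n : ℕ} (G : SimpleGraph (Fin n)) (P : Polynomial ℂ)
    (hP : ∀ k : ℕ, P.eval (k : ℂ) = (Nat.card (G.Coloring (Fin k)) : ℂ)) (v0 : Fin n) :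
    P = Pol G {v0} := by
  classical
  apply poly_ext
  intro k
  rw [hP, Pol_eval]
  norm_cast
  unfold cnt
  let e : G.Coloring (Fin k) ≃ {σ : Fin n → Fin k // (∀ a b, G.Adj a b → σ a ≠ σ b) ∧
      ∀ a ∈ ({v0} : Finset (Fin n)), ∀ b ∈ ({v0} : Finset (Fin n)), σ a = σ b} :=
    { toFun := fun C => ⟨fun a => C a, fun a b h => C.valid h, by
        intro a ha b hb
        rw [Finset.mem_singleton] at ha hb
        rw [ha, hb]⟩
      invFun := fun σ => SimpleGraph.Coloring.mk σ.1 (fun {a b} h => σ.2.1 a b h)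
      left_inv := fun C => by ext a; rfl
      right_inv := fun σ => by ext a; rfl }
  rw [Nat.card_congr e, Nat.card_eq_fintype_card, Fintype.card_subtype]
  congr 1
  ext σ
  simp only [Finset.mem_filter, Finset.mem_univ, true_and]

lemma nb_card_le_maxDegree {n : ℕ} (G : SimpleGraph (Fin n)) [DecidableRel G.Adj] (v : Fin n) :
    (nb G v).card ≤ G.maxDegree := by
  have h : nb G v = G.neighborFinset v := by
    ext a
    simp [mem_nb]
  rw [h]
  exact G.degree_le_maxDegree v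

/-- roots of graphs of maximum degree at most three lie in the disc `|z - 1| < 5` -/
lemma root_three {n : ℕ} (G : SimpleGraph (Fin n)) [DecidableRel G.Adj] (hΔ : G.maxDegree ≤ 3)
    (P : Polynomial ℂ) (hP : ∀ k : ℕ, P.eval (k : ℂ) = (Nat.card (G.Coloring (Fin k)) : ℂ))
    (v0 : Fin n) (z : ℂ) (hz : P.IsRoot z) : ‖z - 1‖ < 5 := by
  by_contra hcon
  push Not at hcon
  rw [eq_Pol G P hP v0] at hz
  have hz0 : z ≠ 0 := by
    rintro rfl
    rw [zero_sub, norm_neg, norm_one] at hcon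
    linarith
  have hz1 : z ≠ 1 := by
    rintro rfl
    rw [sub_self, norm_zero] at hcon
    linarith
  apply nonvanishing z 2 (7 / 5) hz0 hz1 (by norm_num) (by linarith) _ _ G
    (fun v => (nb_card_le_maxDegree G v).trans hΔ) v0 hz
  · intro _
    set w := ‖z - 1‖ * (7 / 5) with hw
    have hw7 : 7 ≤ w := by rw [hw]; linarith
    have e1 : gg (7 / 5) 2 = 49 / 25 := by unfold gg; norm_num
    rw [e1]
    have e2 : (49 / 25 : ℝ) / w ^ 2 ≤ 49 / 25 / 7 ^ 2 := by
      apply div_le_div_of_nonneg_left (by norm_num) (by norm_num)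
      nlinarith
    have e3 : (0 : ℝ) ≤ 49 / 25 / w ^ 2 := by positivity
    have e4 : (7 - 1) * (1 - 49 / 25 / 7 ^ 2) ≤ (w - 1) * (1 - 49 / 25 / w ^ 2) := by
      apply mul_le_mul (by linarith) (by linarith) (by norm_num) (by linarith)
    norm_num at e4 ⊢
    linarith
  · set w := ‖z - 1‖ * (7 / 5) with hw
    have hw7 : 7 ≤ w := by rw [hw]; linarith
    have e1 : gg (7 / 5) 3 = 1078 / 125 := by unfold gg; norm_num
    rw [e1]
    nlinarith

lemma root_two {n : ℕ} (G : SimpleGraph (Fin n)) [DecidableRel G.Adj] (hΔ : G.maxDegree ≤ 2)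
    (P : Polynomial ℂ) (hP : ∀ k : ℕ, P.eval (k : ℂ) = (Nat.card (G.Coloring (Fin k)) : ℂ))
    (v0 : Fin n) (z : ℂ) (hz : P.IsRoot z) : ‖z - 1‖ < 3 := by
  by_contra hcon
  push Not at hcon
  rw [eq_Pol G P hP v0] at hz
  have hz0 : z ≠ 0 := by
    rintro rfl
    rw [zero_sub, norm_neg, norm_one] at hcon
    linarith
  have hz1 : z ≠ 1 := by
    rintro rfl
    rw [sub_self, norm_zero] at hcon
    linarith
  apply nonvanishing z 1 1 hz0 hz1 (by norm_num) (by linarith) _ _ G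
    (fun v => (nb_card_le_maxDegree G v).trans hΔ) v0 hz
  · intro _
    have e1 : gg 1 1 = 0 := by unfold gg; norm_num
    rw [e1]
    norm_num
    linarith
  · have e1 : gg 1 2 = 1 := by unfold gg; norm_num
    rw [e1]
    nlinarith

lemma root_one {n : ℕ} (G : SimpleGraph (Fin n)) [DecidableRel G.Adj] (hΔ : G.maxDegree ≤ 1)
    (P : Polynomial ℂ) (hP : ∀ k : ℕ, P.eval (k : ℂ) = (Nat.card (G.Coloring (Fin k)) : ℂ))
    (v0 : Fin n) (z : ℂ) (hz : P.IsRoot z) : z = 0 ∨ z = 1 := by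
  by_contra hcon
  push Not at hcon
  rw [eq_Pol G P hP v0] at hz
  have h1 : 0 < ‖z - 1‖ := norm_pos_iff.mpr (sub_ne_zero.mpr hcon.2)
  have e0 : ‖z - 1‖ * (5 / 2 / ‖z - 1‖) = 5 / 2 := by field_simp
  apply nonvanishing z 0 (5 / 2 / ‖z - 1‖) hcon.1 hcon.2 (by positivity) (by rw [e0]) _ _ G
    (fun v => (nb_card_le_maxDegree G v).trans hΔ) v0 hz
  · intro h
    omega
  · have e1 : gg (5 / 2 / ‖z - 1‖) (0 + 1) = 0 := by unfold gg; norm_num
    rw [e1, e0]
    norm_num

lemma exp_five_quarters : Real.exp (5 / 4) < 34904 / 10000 := by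
  have h1 : Real.exp (5 / 4) ^ 4 = Real.exp 1 ^ 5 := by
    rw [← Real.exp_nat_mul, ← Real.exp_nat_mul]
    norm_num
  have h2 : Real.exp 1 ^ 5 < 2.7182818286 ^ 5 :=
    pow_lt_pow_left₀ Real.exp_one_lt_d9 (Real.exp_pos 1).le (by norm_num)
  have h3 : (2.7182818286 : ℝ) ^ 5 < (34904 / 10000) ^ 4 := by norm_num
  have h4 : Real.exp (5 / 4) ^ 4 < (34904 / 10000) ^ 4 := by
    rw [h1]; exact h2.trans h3
  exact lt_of_pow_lt_pow_left₀ 4 (by norm_num) h4

/-- roots of graphs of maximum degree at most `d + 1`, `d ≥ 1`, lie in the disc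
`|z - 1| < 3.76 d` -/
lemma root_general {n : ℕ} (G : SimpleGraph (Fin n)) [DecidableRel G.Adj] (d : ℕ) (hd : 1 ≤ d)
    (hΔ : G.maxDegree ≤ d + 1)
    (P : Polynomial ℂ) (hP : ∀ k : ℕ, P.eval (k : ℂ) = (Nat.card (G.Coloring (Fin k)) : ℂ))
    (v0 : Fin n) (z : ℂ) (hz : P.IsRoot z) : ‖z - 1‖ < 94 / 25 * (d : ℝ) := by
  by_contra hcon
  push Not at hcon
  rw [eq_Pol G P hP v0] at hz
  have hd1 : (1 : ℝ) ≤ d := by exact_mod_cast hd
  have hd0 : (0 : ℝ) < d := by linarith
  have hz0 : z ≠ 0 := by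
    rintro rfl
    rw [zero_sub, norm_neg, norm_one] at hcon
    linarith
  have hz1 : z ≠ 1 := by
    rintro rfl
    rw [sub_self, norm_zero] at hcon
    linarith
  have hy0 : (0 : ℝ) < 5 / 4 / d := by positivity
  have hdy : (d : ℝ) * (5 / 4 / d) = 5 / 4 := by field_simp
  have hy1 : (5 : ℝ) / 4 / d ≤ 5 / 4 := by
    rw [div_le_iff₀ hd0]
    linarith
  have hw0 : 47 / 10 ≤ ‖z - 1‖ * (5 / 4 / d) := by
    calc (47 / 10 : ℝ) = (94 / 25 * (d : ℝ)) * (5 / 4 / d) := by field_simp; norm_num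
      _ ≤ ‖z - 1‖ * (5 / 4 / d) := mul_le_mul_of_nonneg_right hcon hy0.le
  have hpow : (1 + 5 / 4 / (d : ℝ)) ^ d ≤ 34904 / 10000 := by
    have e1 : 1 + 5 / 4 / (d : ℝ) ≤ Real.exp (5 / 4 / d) := by
      linarith [Real.add_one_le_exp (5 / 4 / (d : ℝ))]
    have e2 : (1 + 5 / 4 / (d : ℝ)) ^ d ≤ Real.exp (5 / 4 / d) ^ d :=
      pow_le_pow_left₀ (by positivity) e1 d
    rw [← Real.exp_nat_mul, hdy] at e2
    linarith [exp_five_quarters]
  set y : ℝ := 5 / 4 / d with hyd
  set w := ‖z - 1‖ * y with hwd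
  have hgd : gg y d ≤ 12404 / 10000 := by
    unfold gg
    rw [hdy]
    linarith
  have hgd0 : 0 ≤ gg y d := gg_nonneg hy0.le d
  have hw2 : (47 / 10 : ℝ) ^ 2 ≤ w ^ 2 := pow_le_pow_left₀ (by norm_num) hw0 2
  apply nonvanishing z d y hz0 hz1 hy0 (by linarith) _ _ G
    (fun v => (nb_card_le_maxDegree G v).trans hΔ) v0 hz
  · intro _
    rw [← hwd]
    have e2 : gg y d / w ^ 2 ≤ 12404 / 10000 / (47 / 10) ^ 2 :=
      div_le_div₀ (by norm_num) hgd (by norm_num) hw2
    have e4 : (47 / 10 - 1) * (1 - 12404 / 10000 / (47 / 10) ^ 2) ≤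
        (w - 1) * (1 - gg y d / w ^ 2) := by
      apply mul_le_mul (by linarith) (by linarith) (by norm_num) (by linarith)
    norm_num at e4
    linarith
  · rw [← hwd, gg_step]
    have e1 : y * ((1 + y) ^ d - 1) ≤ 5 / 4 * (24904 / 10000) := by
      have h1 : (1 : ℝ) ≤ (1 + y) ^ d := one_le_pow₀ (by linarith)
      apply mul_le_mul hy1 (by linarith) (by linarith) (by norm_num)
    norm_num at hw2
    linarith

theorem sokal_le_three {n : ℕ} (G : SimpleGraph (Fin n)) [DecidableRel G.Adj]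
    (hΔ : G.maxDegree ≤ 3)
    (P : Polynomial ℂ) (hP : ∀ k : ℕ, P.eval (k : ℂ) = (Nat.card (G.Coloring (Fin k)) : ℂ))
    (z : ℂ) (hz : P.IsRoot z) : ‖z‖ ≤ 2 * (G.maxDegree : ℝ) := by
  rcases Nat.eq_zero_or_pos n with hn | hn
  · subst hn
    exfalso
    have h1 : P = 1 := by
      apply poly_ext
      intro k
      rw [hP]
      have : Nat.card (G.Coloring (Fin k)) = 1 := by
        rw [Nat.card_eq_one_iff_unique]
        constructor
        · constructor
          intro a b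
          ext x
          exact x.elim0
        · exact ⟨SimpleGraph.Coloring.mk (fun x => x.elim0) (fun {a} => a.elim0)⟩
      rw [this]
      simp
    rw [h1] at hz
    simp at hz
  · let v0 : Fin n := ⟨0, hn⟩
    have htri : ‖z‖ ≤ ‖z - 1‖ + 1 := by
      have := norm_add_le (z - 1) 1
      rw [sub_add_cancel, norm_one] at this
      exact this
    rcases Nat.lt_or_ge G.maxDegree 1 with h | h
    · have h0 : G.maxDegree = 0 := by omega
      have hbot : G = ⊥ := by
        ext a b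
        simp only [SimpleGraph.bot_adj, iff_false]
        intro hab
        have h1 := nb_card_le_maxDegree G a
        rw [h0, Nat.le_zero, Finset.card_eq_zero, Finset.eq_empty_iff_forall_notMem] at h1
        exact h1 b (mem_nb.mpr hab)
      rw [eq_Pol G P hP v0, hbot, Pol_bot] at hz
      have hz0 : z = 0 := by
        rw [IsRoot, eval_pow, eval_X] at hz
        exact pow_eq_zero_iff (by simp; omega) |>.mp hz
      rw [hz0, norm_zero]
      positivity
    · rcases Nat.lt_or_ge G.maxDegree 2 with h' | h'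
      · have h1 : G.maxDegree = 1 := by omega
        rw [h1]
        rcases root_one G h1.le P hP v0 z hz with rfl | rfl <;> simp
      · rcases Nat.lt_or_ge G.maxDegree 3 with h'' | h''
        · have h2 : G.maxDegree = 2 := by omega
          have := root_two G h2.le P hP v0 z hz
          rw [h2]
          push_cast
          linarith
        · have h3 : G.maxDegree = 3 := by omega
          have := root_three G hΔ P hP v0 z hz
          rw [h3]
          push_cast
          linarith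

end Pool.Agent.V5helper9.Chr
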