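import Pool.Agent.V5helper9.ChrBase

/-!
Centred moments of the events that a set of vertices is monochromatic, and an abstract criterion for the
chromatic polynomial to be nonzero at a complex number `q`.
-/

set_option autoImplicit false
set_option linter.unusedSectionVars false

namespace Pool.Agent.V5helper9.Chr

open Finset Polynomial

variable {V : Type*} [Fintype V] [DecidableEq V]

/-! ### Algebra of set functions -/

/-- centred version of a set function -/
noncomputable def K (q : ℂ) (f : Finset V → ℂ) (S : Finset V) : ℂ :=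
  ∑ R ∈ S.powerset, (-q⁻¹) ^ (S.card - R.card) * f R

lemma K_empty (q : ℂ) (f : Finset V → ℂ) : K q f ∅ = f ∅ := by
  simp [K]

lemma K_insert (q : ℂ) (f : Finset V → ℂ) (S : Finset V) (a : V) (ha : a ∉ S) :
    K q f (insert a S) = K q (fun R => f (insert a R)) S - q⁻¹ * K q f S := by
  unfold K
  rw [Finset.sum_powerset_insert ha, Finset.mul_sum, add_comm, sub_eq_add_neg, ← Finset.sum_neg_distrib]
  congr 1
  · apply Finset.sum_congr rfl
    intro R hR
    rw [Finset.mem_powerset] at hR
    have haR : a ∉ R := fun h => ha (hR h)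
    rw [Finset.card_insert_of_notMem ha, Finset.card_insert_of_notMem haR, Nat.add_sub_add_right]
  · apply Finset.sum_congr rfl
    intro R hR
    rw [Finset.mem_powerset] at hR
    rw [Finset.card_insert_of_notMem ha, Nat.succ_sub (Finset.card_le_card hR), pow_succ]
    ring

lemma K_avoid (q : ℂ) (N : Finset V) : ∀ (f : Finset V → ℂ) (S : Finset V), Disjoint S N →
    ∑ T ∈ N.powerset, (-1 : ℂ) ^ T.card * K q (fun R => f (R ∪ T)) S =
      ∑ U ∈ N.powerset, (1 - q⁻¹) ^ (N.card - U.card) * ((-1) ^ U.card * K q f (S ∪ U)) := by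
  induction N using Finset.induction_on with
  | empty => intro f S _; simp
  | insert a N ha ih =>
    intro f S hdis
    rw [Finset.disjoint_insert_right] at hdis
    rw [Finset.sum_powerset_insert ha, Finset.sum_powerset_insert ha]
    have h1 : ∑ T ∈ N.powerset, (-1 : ℂ) ^ (insert a T).card * K q (fun R => f (R ∪ insert a T)) S =
        - ∑ T ∈ N.powerset, (-1 : ℂ) ^ T.card * K q (fun R => (fun R' => f (insert a R')) (R ∪ T)) S := by
      rw [← Finset.sum_neg_distrib]
      apply Finset.sum_congr rfl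
      intro T hT
      rw [Finset.mem_powerset] at hT
      rw [Finset.card_insert_of_notMem (fun h => ha (hT h)), pow_succ]
      have : (fun R => f (R ∪ insert a T)) = (fun R => (fun R' => f (insert a R')) (R ∪ T)) := by
        funext R
        simp only [Finset.union_insert]
      rw [this]
      ring
    rw [h1, ih f S hdis.2, ih (fun R' => f (insert a R')) S hdis.2, ← sub_eq_add_neg,
      ← Finset.sum_sub_distrib, ← Finset.sum_add_distrib]
    apply Finset.sum_congr rfl
    intro U hU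
    rw [Finset.mem_powerset] at hU
    have haU : a ∉ U := fun h => ha (hU h)
    have haSU : a ∉ S ∪ U := by
      rw [Finset.mem_union, not_or]
      exact ⟨hdis.1, haU⟩
    have h2 := K_insert q f (S ∪ U) a haSU
    have h3 : K q (fun R => f (insert a R)) (S ∪ U) = K q f (insert a (S ∪ U)) + q⁻¹ * K q f (S ∪ U) := by
      rw [h2]; ring
    rw [h3, Finset.card_insert_of_notMem ha, Finset.card_insert_of_notMem haU, Nat.add_sub_add_right,
      Nat.succ_sub (Finset.card_le_card hU), pow_succ, pow_succ, Finset.union_insert]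
    ring

/-- if `f` vanishes on the sets containing `u` and `v` -/
lemma K_adj (q : ℂ) (f : Finset V → ℂ) (S : Finset V) (u v : V) (hu : u ∉ S) (hv : v ∉ S)
    (huv : u ≠ v) (h0 : ∀ R, R ⊆ S → f (insert u (insert v R)) = 0) :
    K q f (insert u (insert v S)) =
      - q⁻¹ * (K q f (insert u S) + K q f (insert v S)) - q⁻¹ ^ 2 * K q f S := by
  have huv' : u ∉ insert v S := by
    rw [Finset.mem_insert, not_or]; exact ⟨huv, hu⟩
  rw [K_insert q f (insert v S) u huv', K_insert q (fun R => f (insert u R)) S v hv]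
  have h1 : K q (fun R => (fun R => f (insert u R)) (insert v R)) S = 0 := by
    unfold K
    apply Finset.sum_eq_zero
    intro R hR
    rw [Finset.mem_powerset] at hR
    simp only [h0 R hR, mul_zero]
  have h2 : K q (fun R => f (insert u R)) S = K q f (insert u S) + q⁻¹ * K q f S := by
    rw [K_insert q f S u hu]; ring
  rw [h1, h2]
  ring

/-- if inserting `u` multiplies by `1/q` -/
lemma K_iso (q : ℂ) (f : Finset V → ℂ) (S : Finset V) (u : V) (hu : u ∉ S)
    (h0 : ∀ R, R ⊆ S → f (insert u R) = q⁻¹ * f R) : K q f (insert u S) = 0 := by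
  rw [K_insert q f S u hu]
  have h1 : K q (fun R => f (insert u R)) S = q⁻¹ * K q f S := by
    unfold K
    rw [Finset.mul_sum]
    apply Finset.sum_congr rfl
    intro R hR
    rw [Finset.mem_powerset] at hR
    simp only [h0 R hR]
    ring
  rw [h1, sub_self]

/-! ### The set function of a graph -/

/-- value at `q` of the number of colourings constant on `S`; for the empty set all colourings are
counted `q` times -/
noncomputable def Av (q : ℂ) (H : SimpleGraph V) (v0 : V) (S : Finset V) : ℂ :=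
  if S = ∅ then q * (Pol H {v0}).eval q else (Pol H S).eval q

noncomputable def Zv (q : ℂ) (H : SimpleGraph V) (v0 : V) : ℂ := (Pol H {v0}).eval q

/-- the quotient -/
noncomputable def Fv (q : ℂ) (H : SimpleGraph V) (v0 : V) (S : Finset V) : ℂ :=
  Av q H v0 S / Zv q H v0

lemma Av_single (q : ℂ) (H : SimpleGraph V) (v0 u : V) : Av q H v0 {u} = Zv q H v0 := by
  unfold Av Zv
  rw [if_neg (Finset.singleton_ne_empty u), Pol_single H u v0]

lemma Av_isolated (q : ℂ) (H : SimpleGraph V) (v0 u : V) (S : Finset V) (hu : u ∉ S)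
    (hiso : nb H u = ∅) : q * Av q H v0 (insert u S) = Av q H v0 S := by
  by_cases hS : S = ∅
  · subst hS
    have h1 : Av q H v0 (insert u ∅) = Zv q H v0 := Av_single q H v0 u
    rw [h1]
    simp [Av, Zv]
  · unfold Av
    rw [if_neg (Finset.insert_ne_empty u S), if_neg hS]
    have h1 := Pol_isolated H (insert u S) u (Finset.mem_insert_self u S) hiso (by
      rw [Finset.erase_insert hu]; exact Finset.nonempty_iff_ne_empty.mpr hS)
    rw [Finset.erase_insert hu] at h1
    rw [← h1, eval_mul, eval_X]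

lemma nb_del_self (H : SimpleGraph V) (u : V) : nb (del H u) u = ∅ := by
  ext a
  simp [mem_nb, del_adj]

lemma not_mem_nb_self (H : SimpleGraph V) (u : V) : u ∉ nb H u := by
  rw [mem_nb]
  exact H.loopless.irrefl u

lemma Av_rec (q : ℂ) (H : SimpleGraph V) (v0 u : V) (S : Finset V) (hu : u ∉ S) :
    q * Av q H v0 (insert u S) =
      ∑ T ∈ (nb H u).powerset, (-1) ^ T.card * Av q (del H u) v0 (S ∪ T) := by
  have h1 : Av q H v0 (insert u S) = ∑ T ∈ (nb H u).powerset,
      (-1) ^ T.card * Av q (del H u) v0 (insert u (S ∪ T)) := by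
    unfold Av
    rw [if_neg (Finset.insert_ne_empty u S), Pol_rec H (insert u S) u (Finset.mem_insert_self u S),
      eval_finsetSum]
    apply Finset.sum_congr rfl
    intro T hT
    rw [if_neg (Finset.insert_ne_empty u _), eval_mul, Finset.insert_union]
    simp
  rw [h1, Finset.mul_sum]
  apply Finset.sum_congr rfl
  intro T hT
  rw [Finset.mem_powerset] at hT
  have h2 : u ∉ S ∪ T := by
    rw [Finset.mem_union, not_or]
    exact ⟨hu, fun h => not_mem_nb_self H u (hT h)⟩
  rw [← Av_isolated q (del H u) v0 u (S ∪ T) h2 (nb_del_self H u)]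
  ring

/-- the factor by which the number of colourings grows -/
noncomputable def Dv (q : ℂ) (H : SimpleGraph V) (v0 u : V) : ℂ :=
  ∑ T ∈ (nb H u).powerset, (-1) ^ T.card * Fv q (del H u) v0 T

lemma Zv_eq (q : ℂ) (H : SimpleGraph V) (v0 u : V) (hZ : Zv q (del H u) v0 ≠ 0) :
    q * Zv q H v0 = Dv q H v0 u * Zv q (del H u) v0 := by
  have h1 := Av_rec q H v0 u ∅ (Finset.notMem_empty u)
  have h2 : Av q H v0 (insert u ∅) = Zv q H v0 := Av_single q H v0 u
  rw [h2] at h1
  rw [h1]
  unfold Dv Fv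
  rw [Finset.sum_mul]
  apply Finset.sum_congr rfl
  intro T hT
  rw [Finset.empty_union]
  field_simp

lemma Fv_insert (q : ℂ) (H : SimpleGraph V) (v0 u : V) (S : Finset V) (hu : u ∉ S) (hq : q ≠ 0)
    (hZ : Zv q (del H u) v0 ≠ 0) (hZ' : Zv q H v0 ≠ 0) :
    Fv q H v0 (insert u S) = (Dv q H v0 u)⁻¹ *
      ∑ T ∈ (nb H u).powerset, (-1) ^ T.card * Fv q (del H u) v0 (S ∪ T) := by
  have h0 := Zv_eq q H v0 u hZ
  have hD : Dv q H v0 u ≠ 0 := by
    intro h
    rw [h, zero_mul] at h0
    exact mul_ne_zero hq hZ' h0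
  have h1 := Av_rec q H v0 u S hu
  have h2 : ∑ T ∈ (nb H u).powerset, (-1) ^ T.card * Fv q (del H u) v0 (S ∪ T) =
      (∑ T ∈ (nb H u).powerset, (-1) ^ T.card * Av q (del H u) v0 (S ∪ T)) / Zv q (del H u) v0 := by
    rw [Finset.sum_div]
    apply Finset.sum_congr rfl
    intro T hT
    unfold Fv
    ring
  rw [h2, ← h1]
  have h3 : Zv q (del H u) v0 = q * Zv q H v0 / Dv q H v0 u := by
    rw [h0]; field_simp
  unfold Fv
  rw [h3]
  field_simp

lemma Fv_empty (q : ℂ) (H : SimpleGraph V) (v0 : V) (hZ : Zv q H v0 ≠ 0) : Fv q H v0 ∅ = q := by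
  unfold Fv Av
  rw [if_pos rfl]
  unfold Zv at hZ ⊢
  field_simp

lemma Fv_single (q : ℂ) (H : SimpleGraph V) (v0 u : V) (hZ : Zv q H v0 ≠ 0) :
    Fv q H v0 {u} = 1 := by
  unfold Fv
  rw [Av_single]
  exact div_self hZ

lemma Fv_isolated (q : ℂ) (H : SimpleGraph V) (v0 u : V) (S : Finset V) (hu : u ∉ S) (hq : q ≠ 0)
    (hiso : nb H u = ∅) : Fv q H v0 (insert u S) = q⁻¹ * Fv q H v0 S := by
  unfold Fv
  rw [← Av_isolated q H v0 u S hu hiso]
  field_simp

lemma Fv_adj (q : ℂ) (H : SimpleGraph V) (v0 u v : V) (S : Finset V) (huv : H.Adj u v) :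
    Fv q H v0 (insert u (insert v S)) = 0 := by
  unfold Fv Av
  rw [if_neg (Finset.insert_ne_empty u _), Pol_adj H _ u v (by simp) (by simp) huv]
  simp

/-- the recursion for the centred moments -/
lemma K_rec (q : ℂ) (H : SimpleGraph V) (v0 u : V) (S : Finset V) (hu : u ∉ S) (hq : q ≠ 0)
    (hZ : Zv q (del H u) v0 ≠ 0) (hZ' : Zv q H v0 ≠ 0) (hdis : Disjoint S (nb H u)) :
    K q (Fv q H v0) (insert u S) = (Dv q H v0 u)⁻¹ *
      (∑ U ∈ (nb H u).powerset, (1 - q⁻¹) ^ ((nb H u).card - U.card) *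
        ((-1) ^ U.card * K q (Fv q (del H u) v0) (S ∪ U))) - q⁻¹ * K q (Fv q H v0) S := by
  rw [K_insert q _ S u hu, ← K_avoid q (nb H u) (Fv q (del H u) v0) S hdis]
  congr 1
  unfold K
  rw [Finset.mul_sum]
  have h1 : ∀ R ∈ S.powerset, (-q⁻¹) ^ (S.card - R.card) * Fv q H v0 (insert u R) =
      ∑ T ∈ (nb H u).powerset, (Dv q H v0 u)⁻¹ * ((-1) ^ T.card *
        ((-q⁻¹) ^ (S.card - R.card) * Fv q (del H u) v0 (R ∪ T))) := by
    intro R hR
    rw [Finset.mem_powerset] at hR
    rw [Fv_insert q H v0 u R (fun h => hu (hR h)) hq hZ hZ', Finset.mul_sum, Finset.mul_sum]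
    apply Finset.sum_congr rfl
    intro T hT
    ring
  rw [Finset.sum_congr rfl h1, Finset.sum_comm]
  apply Finset.sum_congr rfl
  intro T hT
  rw [Finset.mul_sum, Finset.mul_sum]

lemma Dv_eq (q : ℂ) (H : SimpleGraph V) (v0 u : V) :
    Dv q H v0 u = ∑ U ∈ (nb H u).powerset, (1 - q⁻¹) ^ ((nb H u).card - U.card) *
        ((-1) ^ U.card * K q (Fv q (del H u) v0) U) := by
  have h := K_avoid q (nb H u) (Fv q (del H u) v0) ∅ (Finset.disjoint_empty_left _)
  simp only [Finset.empty_union] at h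
  rw [← h]
  unfold Dv
  apply Finset.sum_congr rfl
  intro T hT
  rw [K_empty, Finset.empty_union]

/-! ### Degrees -/

lemma nb_del_card_le (H : SimpleGraph V) (u a : V) : (nb (del H u) a).card ≤ (nb H a).card := by
  apply Finset.card_le_card
  intro b hb
  rw [mem_nb] at hb ⊢
  exact hb.1

lemma nb_del_card_lt (H : SimpleGraph V) (u a : V) (h : H.Adj u a) :
    (nb (del H u) a).card + 1 ≤ (nb H a).card := by
  rw [Nat.succ_le_iff]
  apply Finset.card_lt_card
  refine ⟨?_, ?_⟩
  · intro b hb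
    rw [mem_nb] at hb ⊢
    exact hb.1
  · intro hsub
    have h1 : u ∈ nb H a := mem_nb.mpr h.symm
    have h2 := mem_nb.mp (hsub h1)
    exact h2.2.2 rfl

/-! ### The criterion -/

/-- the lower bound for `‖Dv‖` -/
noncomputable def Dlow (Q t : ℝ) (γ : ℕ → ℝ) (r : ℕ) : ℝ :=
  Q * t ^ r - ∑ s ∈ Finset.Ico 1 (r + 1), (r.choose s : ℝ) * (t ^ (r - s) * γ s)

lemma sum_powerset_card (N : Finset V) (g : ℕ → ℝ) :
    ∑ U ∈ N.powerset, g U.card = ∑ s ∈ Finset.range (N.card + 1), (N.card.choose s : ℝ) * g s := by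
  rw [Finset.sum_powerset_apply_card]
  simp [nsmul_eq_mul]

structure Good (q : ℂ) (d : ℕ) (γ : ℕ → ℝ) : Prop where
  q0 : q ≠ 0
  nonneg : ∀ k, 0 ≤ γ k
  g0 : γ 0 = ‖q‖
  g1 : γ 1 = 0
  adj : ∀ k, 2 * ‖q‖⁻¹ * γ (k + 1) + ‖q‖⁻¹ ^ 2 * γ k ≤ γ (k + 2)
  step : ∀ r, 1 ≤ r → r ≤ d → ∀ k,
    (∑ s ∈ Finset.range (r + 1), (r.choose s : ℝ) * (‖1 - q⁻¹‖ ^ (r - s) * γ (k + 1 + s))) +
      Dlow ‖q‖ ‖1 - q⁻¹‖ γ r * (‖q‖⁻¹ * γ (k + 1)) ≤ Dlow ‖q‖ ‖1 - q⁻¹‖ γ r * γ (k + 2)
  pos : ∀ r, r ≤ d + 1 → 0 < Dlow ‖q‖ ‖1 - q⁻¹‖ γ r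

lemma Dv_lower (q : ℂ) (H : SimpleGraph V) (v0 u : V) (γ : ℕ → ℝ)
    (hZ : Zv q (del H u) v0 ≠ 0)
    (hK : ∀ U, U ⊆ nb H u → ‖K q (Fv q (del H u) v0) U‖ ≤ γ U.card) :
    Dlow ‖q‖ ‖1 - q⁻¹‖ γ (nb H u).card ≤ ‖Dv q H v0 u‖ := by
  rw [Dv_eq]
  set N := nb H u with hN
  have h1 : ∑ U ∈ N.powerset, (1 - q⁻¹) ^ (N.card - U.card) *
        ((-1) ^ U.card * K q (Fv q (del H u) v0) U) =
      (1 - q⁻¹) ^ N.card * q + ∑ U ∈ N.powerset.erase ∅, (1 - q⁻¹) ^ (N.card - U.card) *
        ((-1) ^ U.card * K q (Fv q (del H u) v0) U) := by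
    rw [← Finset.add_sum_erase _ _ (Finset.empty_mem_powerset N)]
    rw [K_empty, Fv_empty q _ v0 hZ]
    simp
  have h2 : ‖∑ U ∈ N.powerset.erase ∅, (1 - q⁻¹) ^ (N.card - U.card) *
        ((-1) ^ U.card * K q (Fv q (del H u) v0) U)‖ ≤
      ∑ s ∈ Finset.Ico 1 (N.card + 1), (N.card.choose s : ℝ) * (‖1 - q⁻¹‖ ^ (N.card - s) * γ s) := by
    calc _ ≤ ∑ U ∈ N.powerset.erase ∅, ‖1 - q⁻¹‖ ^ (N.card - U.card) * γ U.card := by
          refine (norm_sum_le _ _).trans (Finset.sum_le_sum fun U hU => ?_)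
          rw [Finset.mem_erase, Finset.mem_powerset] at hU
          rw [norm_mul, norm_mul, norm_pow, norm_pow, norm_neg, norm_one, one_pow, one_mul]
          exact mul_le_mul_of_nonneg_left (hK U hU.2) (by positivity)
      _ = _ := by
          have h3 := sum_powerset_card N (fun s => ‖1 - q⁻¹‖ ^ (N.card - s) * γ s)
          rw [← Finset.add_sum_erase _ _ (Finset.empty_mem_powerset N)] at h3
          rw [Finset.range_eq_Ico, Finset.sum_eq_sum_Ico_succ_bot (by omega)] at h3
          simp only [Finset.card_empty, Nat.choose_zero_right, Nat.cast_one, one_mul, zero_add] at h3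
          linarith
  rw [h1]
  unfold Dlow
  have h4 : ‖(1 - q⁻¹) ^ N.card * q‖ = ‖q‖ * ‖1 - q⁻¹‖ ^ N.card := by
    rw [norm_mul, norm_pow]; ring
  have h5 := norm_sub_le ((1 - q⁻¹) ^ N.card * q + ∑ U ∈ N.powerset.erase ∅,
    (1 - q⁻¹) ^ (N.card - U.card) * ((-1) ^ U.card * K q (Fv q (del H u) v0) U))
    (∑ U ∈ N.powerset.erase ∅,
    (1 - q⁻¹) ^ (N.card - U.card) * ((-1) ^ U.card * K q (Fv q (del H u) v0) U))
  rw [add_sub_cancel_right, h4] at h5
  linarith

theorem criterion (q : ℂ) (d : ℕ) (γ : ℕ → ℝ) (hg : Good q d γ) (v0 : V) (H : SimpleGraph V) :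
    (∀ v, (nb H v).card ≤ d + 1) → Zv q H v0 ≠ 0 ∧
      ∀ S : Finset V, (∀ v ∈ S, (nb H v).card ≤ d) → ‖K q (Fv q H v0) S‖ ≤ γ S.card := by
  have hq := hg.q0
  have hQ : 0 < ‖q‖ := norm_pos_iff.mpr hq
  -- the bound from the nonvanishing
  have hsmall : ∀ (H : SimpleGraph V), Zv q H v0 ≠ 0 → ∀ S : Finset V, S.card ≤ 1 →
      ‖K q (Fv q H v0) S‖ ≤ γ S.card := by
    intro H hZ S hS
    rcases Nat.le_one_iff_eq_zero_or_eq_one.mp hS with h | h
    · rw [Finset.card_eq_zero] at h
      subst h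
      rw [K_empty, Fv_empty q H v0 hZ, Finset.card_empty, hg.g0]
    · obtain ⟨a, rfl⟩ := Finset.card_eq_one.mp h
      have h1 := K_insert q (Fv q H v0) ∅ a (Finset.notMem_empty a)
      rw [insert_empty_eq, K_empty, K_empty, insert_empty_eq, Fv_single q H v0 a hZ,
        Fv_empty q H v0 hZ, inv_mul_cancel₀ hq, sub_self] at h1
      rw [h1, norm_zero]
      exact hg.nonneg _
  have hisol : ∀ (H : SimpleGraph V), ∀ S : Finset V, ∀ u ∈ S, nb H u = ∅ →
      ‖K q (Fv q H v0) S‖ ≤ γ S.card := by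
    intro H S u hu hiso
    have h1 : insert u (S.erase u) = S := Finset.insert_erase hu
    rw [← h1, K_iso q (Fv q H v0) (S.erase u) u (Finset.notMem_erase u S)
      (fun R hR => Fv_isolated q H v0 u R (fun h => Finset.notMem_erase u S (hR h)) hq hiso),
      norm_zero]
    exact hg.nonneg _
  induction H using del_induction with
  | hbot =>
    intro _
    have hZ : Zv q (⊥ : SimpleGraph V) v0 ≠ 0 := by
      unfold Zv
      rw [Pol_bot, eval_pow, eval_X]
      exact pow_ne_zero _ hq
    refine ⟨hZ, fun S _ => ?_⟩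
    by_cases hS : S.card ≤ 1
    · exact hsmall _ hZ S hS
    · obtain ⟨u, hu⟩ : S.Nonempty := by rw [← Finset.card_pos]; omega
      exact hisol _ S u hu (by ext a; simp [mem_nb])
  | hstep H ih hH =>
    intro hdeg
    have hdeg' : ∀ u v, (nb (del H u) v).card ≤ d + 1 := fun u v =>
      (nb_del_card_le H u v).trans (hdeg v)
    have hK' : ∀ u, (nb H u).Nonempty → ∀ U, U ⊆ nb H u →
        ‖K q (Fv q (del H u) v0) U‖ ≤ γ U.card := by
      intro u hu U hU
      apply (ih u hu (hdeg' u)).2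
      intro v hv
      have := nb_del_card_lt H u v (mem_nb.mp (hU hv))
      have := hdeg v
      omega
    have hZ : Zv q H v0 ≠ 0 := by
      obtain ⟨w, hw⟩ := exists_nonisolated hH
      have h1 := (ih w hw (hdeg' w)).1
      have h2 := Dv_lower q H v0 w γ h1 (hK' w hw)
      have h3 := hg.pos _ (hdeg w)
      have h4 : Dv q H v0 w ≠ 0 := by
        intro h
        rw [h, norm_zero] at h2
        linarith
      intro h
      have h5 := Zv_eq q H v0 w h1
      rw [h, mul_zero] at h5
      exact mul_ne_zero h4 h1 h5.symm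
    refine ⟨hZ, ?_⟩
    intro S
    generalize hm : S.card = m
    induction m using Nat.strong_induction_on generalizing S with
    | _ m ihm =>
      intro hS
      subst hm
      by_cases hcard : S.card ≤ 1
      · exact hsmall H hZ S hcard
      push Not at hcard
      by_cases h1 : ∃ u ∈ S, nb H u = ∅
      · obtain ⟨u, hu, hiso⟩ := h1
        exact hisol H S u hu hiso
      push Not at h1
      by_cases h2 : ∃ u ∈ S, ∃ v ∈ S, H.Adj u v
      · obtain ⟨u, hu, v, hv, huv⟩ := h2
        have huv' : u ≠ v := huv.ne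
        set S' := (S.erase u).erase v with hS'
        have hvS : v ∈ S.erase u := Finset.mem_erase.mpr ⟨huv'.symm, hv⟩
        have hSeq : S = insert u (insert v S') := by
          rw [hS', Finset.insert_erase hvS, Finset.insert_erase hu]
        have hu' : u ∉ S' := by simp [hS']
        have hv' : v ∉ S' := by simp [hS']
        have hc : S.card = S'.card + 2 := by
          rw [hSeq, Finset.card_insert_of_notMem (by simp [huv', hu']),
            Finset.card_insert_of_notMem hv']
        have hsub : ∀ x ∈ S', x ∈ S := by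
          intro x hx
          rw [hSeq]; simp [hx]
        have e1 := ihm (insert u S').card (by rw [Finset.card_insert_of_notMem hu']; omega)
          (insert u S') rfl (by
            intro x hx
            rcases Finset.mem_insert.mp hx with rfl | hx
            · exact hS _ hu
            · exact hS x (hsub x hx))
        have e2 := ihm (insert v S').card (by rw [Finset.card_insert_of_notMem hv']; omega)
          (insert v S') rfl (by
            intro x hx
            rcases Finset.mem_insert.mp hx with rfl | hx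
            · exact hS _ hv
            · exact hS x (hsub x hx))
        have e3 := ihm S'.card (by omega) S' rfl (fun x hx => hS x (hsub x hx))
        rw [Finset.card_insert_of_notMem hu'] at e1
        rw [Finset.card_insert_of_notMem hv'] at e2
        have e4 := hg.adj S'.card
        have e5 := K_adj q (Fv q H v0) S' u v hu' hv' huv' (fun R _ => Fv_adj q H v0 u v R huv)
        rw [← hSeq] at e5
        rw [e5, hc]
        calc ‖-q⁻¹ * (K q (Fv q H v0) (insert u S') + K q (Fv q H v0) (insert v S')) -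
              q⁻¹ ^ 2 * K q (Fv q H v0) S'‖
            ≤ ‖q‖⁻¹ * (γ (S'.card + 1) + γ (S'.card + 1)) + ‖q‖⁻¹ ^ 2 * γ S'.card := by
              refine (norm_sub_le _ _).trans (add_le_add ?_ ?_)
              · rw [norm_mul, norm_neg, norm_inv]
                refine mul_le_mul_of_nonneg_left ?_ (by positivity)
                exact (norm_add_le _ _).trans (add_le_add e1 e2)
              · rw [norm_mul, norm_pow, norm_inv]
                exact mul_le_mul_of_nonneg_left e3 (by positivity)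
          _ ≤ γ (S'.card + 2) := by linarith
      push Not at h2
      obtain ⟨u, hu⟩ : S.Nonempty := by rw [← Finset.card_pos]; omega
      have hne : (nb H u).Nonempty := h1 u hu
      have hZ1 := (ih u hne (hdeg' u)).1
      set S' := S.erase u with hS'
      have hSeq : S = insert u S' := (Finset.insert_erase hu).symm
      have hu' : u ∉ S' := Finset.notMem_erase u S
      have hdis : Disjoint S' (nb H u) := by
        rw [Finset.disjoint_left]
        intro a ha ha'
        exact h2 u hu a (Finset.mem_erase.mp ha).2 (mem_nb.mp ha')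
      have hc : S.card = S'.card + 1 := by
        rw [hSeq, Finset.card_insert_of_notMem hu']
      obtain ⟨k, hk⟩ : ∃ k, S'.card = k + 1 := ⟨S'.card - 1, by omega⟩
      have e0 := K_rec q H v0 u S' hu' hq hZ1 hZ hdis
      rw [← hSeq] at e0
      set r := (nb H u).card with hr
      have hr1 : 1 ≤ r := Finset.card_pos.mpr hne
      have hrd : r ≤ d := hS u hu
      have hDl := Dv_lower q H v0 u γ hZ1 (hK' u hne)
      rw [← hr] at hDl
      have hDpos := hg.pos r (by omega)
      have hDn : 0 < ‖Dv q H v0 u‖ := lt_of_lt_of_le hDpos hDl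
      have e1 : ‖∑ U ∈ (nb H u).powerset, (1 - q⁻¹) ^ (r - U.card) *
          ((-1) ^ U.card * K q (Fv q (del H u) v0) (S' ∪ U))‖ ≤
          ∑ s ∈ Finset.range (r + 1), (r.choose s : ℝ) * (‖1 - q⁻¹‖ ^ (r - s) * γ (k + 1 + s)) := by
        have h3 := sum_powerset_card (nb H u) (fun s => ‖1 - q⁻¹‖ ^ (r - s) * γ (k + 1 + s))
        rw [← hr] at h3
        rw [← h3]
        refine (norm_sum_le _ _).trans (Finset.sum_le_sum fun U hU => ?_)
        rw [Finset.mem_powerset] at hU
        rw [norm_mul, norm_mul, norm_pow, norm_pow, norm_neg, norm_one, one_pow, one_mul]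
        refine mul_le_mul_of_nonneg_left ?_ (by positivity)
        have hdU : Disjoint S' U := Finset.disjoint_of_subset_right hU hdis
        have h4 := (ih u hne (hdeg' u)).2 (S' ∪ U) (by
          intro v hv
          rcases Finset.mem_union.mp hv with hv | hv
          · exact (nb_del_card_le H u v).trans (hS v (Finset.mem_erase.mp hv).2)
          · have := nb_del_card_lt H u v (mem_nb.mp (hU hv))
            have := hdeg v
            omega)
        rw [Finset.card_union_of_disjoint hdU, hk] at h4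
        exact h4
      have e2 := ihm S'.card (by omega) S' rfl (fun x hx => hS x (Finset.mem_erase.mp hx).2)
      rw [hk] at e2
      have e3 := hg.step r hr1 hrd k
      rw [e0, hc, hk]
      set s1 := ∑ U ∈ (nb H u).powerset, (1 - q⁻¹) ^ (r - U.card) *
          ((-1) ^ U.card * K q (Fv q (del H u) v0) (S' ∪ U)) with hs1
      set s2 := ∑ s ∈ Finset.range (r + 1), (r.choose s : ℝ) *
        (‖1 - q⁻¹‖ ^ (r - s) * γ (k + 1 + s)) with hs2
      have hs2n : 0 ≤ s2 := le_trans (norm_nonneg _) e1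
      have e4 : ‖(Dv q H v0 u)⁻¹ * s1 - q⁻¹ * K q (Fv q H v0) S'‖ ≤
          (Dlow ‖q‖ ‖1 - q⁻¹‖ γ r)⁻¹ * s2 + ‖q‖⁻¹ * γ (k + 1) := by
        refine (norm_sub_le _ _).trans (add_le_add ?_ ?_)
        · rw [norm_mul, norm_inv]
          exact mul_le_mul (inv_anti₀ hDpos hDl) e1 (norm_nonneg _) (by positivity)
        · rw [norm_mul, norm_inv]
          exact mul_le_mul_of_nonneg_left e2 (by positivity)
      refine e4.trans ?_
      rw [← mul_le_mul_iff_right₀ hDpos]
      have e5 : Dlow ‖q‖ ‖1 - q⁻¹‖ γ r * ((Dlow ‖q‖ ‖1 - q⁻¹‖ γ r)⁻¹ * s2 + ‖q‖⁻¹ * γ (k + 1)) =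
          s2 + Dlow ‖q‖ ‖1 - q⁻¹‖ γ r * (‖q‖⁻¹ * γ (k + 1)) := by
        rw [mul_add, ← mul_assoc, mul_inv_cancel₀ hDpos.ne', one_mul]
      rw [e5]
      exact e3

end Pool.Agent.V5helper9.Chr
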